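import Pool.Agent.Y968.SV.Basic
import Pool.Agent.T2h8.FGRF.Grp4

/-!
# Soluble varieties whose finitely generated groups are residually finite

Let `V` be a soluble variety of groups. In a residually finite group an element `b` which commutes
with `t^(-i) m t^i` for all `i ≥ 1` commutes with `m`. We prove that this trivial necessary condition
is also sufficient: if it holds in the groups of `V`, then all finitely generated groups in `V` are
residually finite. In terms of laws: the finitely generated groups in `V` are residually finite if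
and only if `V` satisfies a law `[b, m] = d`, where `d` is a word in `b`, `m`, `t` which is a product
of conjugates of the commutators `[b, t^(-i) m t^i]`, `i ≥ 1`, and of their inverses. We also show that
it is enough that one explicit `3`-generator group of `V` is residually finite, and that the condition
is equivalent to the Hopf property, to the maximal condition on normal subgroups, and to smallness.
-/

set_option autoImplicit false

namespace Pool.Agent.Results.MP_364ede_al.Criterion

open scoped commutatorElement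

/-- `G` belongs to the variety of groups defined by the laws `w = 1`, `w ∈ W`. -/
def InVariety (W : Set (FreeGroup ℕ)) (G : Type) [Group G] : Prop :=
  ∀ w ∈ W, ∀ f : ℕ → G, FreeGroup.lift f w = 1

/-- the variety defined by `W` is soluble: the derived lengths of its groups are bounded. -/
def SolubleVariety (W : Set (FreeGroup ℕ)) : Prop :=
  ∃ d : ℕ, ∀ (G : Type) [Group G], InVariety W G → derivedSeries G d = ⊥

/-- `G` is residually finite: for every `g ≠ 1` there is a normal subgroup of finite index which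
does not contain `g`. -/
def ResiduallyFinite (G : Type) [Group G] : Prop :=
  ∀ g : G, g ≠ 1 → ∃ N : Subgroup G, N.Normal ∧ N.FiniteIndex ∧ g ∉ N

/-- `G` is Hopfian: every surjective endomorphism is injective. -/
def Hopfian (G : Type) [Group G] : Prop :=
  ∀ φ : G →* G, Function.Surjective φ → Function.Injective φ

/-- `G` is generated by three elements. -/
def ThreeGenerated (G : Type) [Group G] : Prop :=
  ∃ a b c : G, Subgroup.closure {a, b, c} = ⊤

/-- `G` satisfies the maximal condition on normal subgroups: every normal subgroup of `G` is the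
normal closure of a finite set. -/
def MaxNormal (G : Type) [Group G] : Prop :=
  ∀ N : Subgroup G, N.Normal → ∃ S : Finset G, N = Subgroup.normalClosure (S : Set G)

/-- the lower central series of the group `H`, as subgroups of `G`. -/
def lcs {G : Type} [Group G] (H : Subgroup G) : ℕ → Subgroup G
  | 0 => H
  | k + 1 => ⁅lcs H k, H⁆

/-- `G` is nilpotent-by-(nilpotent-by-finite): it has a normal subgroup `H` of finite index such
that some term of the lower central series of `H` is nilpotent. -/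
def NilpotentByNilpotentByFinite (G : Type) [Group G] : Prop :=
  ∃ H : Subgroup G, H.Normal ∧ H.FiniteIndex ∧ ∃ k c : ℕ, lcs (lcs H k) c = ⊥

/-- the variety defined by `W` is small: every family of pairwise non-isomorphic finitely generated
groups in it has fewer than `2^ℵ₀` members. -/
def SmallVariety (W : Set (FreeGroup ℕ)) : Prop :=
  ∀ (ι : Type) (G : ι → Type) [∀ i, Group (G i)], (∀ i, Group.FG (G i)) →
    (∀ i, InVariety W (G i)) → (∀ i j, Nonempty (G i ≃* G j) → i = j) →
    Cardinal.mk ι < Cardinal.continuum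

/-- In the groups of the variety, an element `b` which commutes with `t^(-i) m t^i` for all `i ≥ 1`
commutes with `m`. -/
def ConjugateCondition (W : Set (FreeGroup ℕ)) : Prop :=
  ∀ (G : Type) [Group G], InVariety W G → ∀ b m t : G,
    (∀ i : ℕ, 1 ≤ i → ⁅b, t ^ (-(i : ℤ)) * m * t ^ (i : ℤ)⁆ = 1) → ⁅b, m⁆ = 1

/-- the words `[b, m] * d` in the free group on `b`, `m`, `t` (the free generators `0`, `1`, `2`),
where `d` lies in the normal closure of the commutators `[b, t^(-i) m t^i]`, `i ≥ 1`. -/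
def Good (w : FreeGroup (Fin 3)) : Prop :=
  ∃ d ∈ Subgroup.normalClosure {x : FreeGroup (Fin 3) | ∃ i : ℕ, 1 ≤ i ∧
      x = ⁅(FreeGroup.of 0 : FreeGroup (Fin 3)),
        FreeGroup.of 2 ^ (-(i : ℤ)) * FreeGroup.of 1 * FreeGroup.of 2 ^ (i : ℤ)⁆},
    w = ⁅(FreeGroup.of 0 : FreeGroup (Fin 3)), FreeGroup.of 1⁆ * d

/-- `w = 1` is a law in three variables of the variety defined by `W`. -/
def IsLaw (W : Set (FreeGroup ℕ)) (w : FreeGroup (Fin 3)) : Prop :=
  ∀ (G : Type) [Group G], InVariety W G → ∀ f : Fin 3 → G, FreeGroup.lift f w = 1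

/-- the relators of the test group: all values of the words of `W` in the free group on `b`, `m`,
`t` (the free generators `0`, `1`, `2`), and the commutators `[b, t^(-i) m t^i]`, `i ≥ 0`. -/
def relators (W : Set (FreeGroup ℕ)) : Set (FreeGroup (Fin 3)) :=
  {x | ∃ w ∈ W, ∃ f : ℕ → FreeGroup (Fin 3), x = FreeGroup.lift f w} ∪
    {x | ∃ k : ℕ, x = ⁅(FreeGroup.of 0 : FreeGroup (Fin 3)),
      FreeGroup.of 2 ^ (-(k : ℤ)) * FreeGroup.of 1 * FreeGroup.of 2 ^ (k : ℤ)⁆}

/-- the test group of the variety defined by `W`. -/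
abbrev TestGroup (W : Set (FreeGroup ℕ)) : Type :=
  FreeGroup (Fin 3) ⧸ Subgroup.normalClosure (relators W)

open Pool.Agent.H53R2 Pool.Agent.Y968.SV Pool.Agent.T2h8.FGRF

theorem testEquiv (W : Set (FreeGroup ℕ)) :
    Nonempty ((RF W 3 ⧸ Subgroup.normalClosure {x : RF W 3 | ∃ k : ℕ, x =
      ⁅(RF.gen W 0 : RF W 3), RF.gen W 2 ^ (-(k : ℤ)) * RF.gen W 1 * RF.gen W 2 ^ (k : ℤ)⁆}) ≃*
      TestGroup W) := by
  have h := quot_two {x | ∃ w ∈ W, ∃ f : ℕ → FreeGroup (Fin 3), x = FreeGroup.lift f w}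
    {x | ∃ k : ℕ, x = ⁅(FreeGroup.of 0 : FreeGroup (Fin 3)),
      FreeGroup.of 2 ^ (-(k : ℤ)) * FreeGroup.of 1 * FreeGroup.of 2 ^ (k : ℤ)⁆}
  have himg : QuotientGroup.mk' (verb W 3) ''
      {x | ∃ k : ℕ, x = ⁅(FreeGroup.of 0 : FreeGroup (Fin 3)),
        FreeGroup.of 2 ^ (-(k : ℤ)) * FreeGroup.of 1 * FreeGroup.of 2 ^ (k : ℤ)⁆} =
      {x : RF W 3 | ∃ k : ℕ, x =
        ⁅(RF.gen W 0 : RF W 3), RF.gen W 2 ^ (-(k : ℤ)) * RF.gen W 1 * RF.gen W 2 ^ (k : ℤ)⁆} := by
    ext x
    constructor
    · rintro ⟨_, ⟨k, rfl⟩, rfl⟩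
      refine ⟨k, ?_⟩
      rw [map_commutatorElement, map_mul, map_mul, map_zpow, map_zpow]
      rfl
    · rintro ⟨k, rfl⟩
      refine ⟨_, ⟨k, rfl⟩, ?_⟩
      rw [map_commutatorElement, map_mul, map_mul, map_zpow, map_zpow]
      rfl
  have h2 : Nonempty ((RF W 3 ⧸ Subgroup.normalClosure (QuotientGroup.mk' (verb W 3) ''
      {x | ∃ k : ℕ, x = ⁅(FreeGroup.of 0 : FreeGroup (Fin 3)),
        FreeGroup.of 2 ^ (-(k : ℤ)) * FreeGroup.of 1 * FreeGroup.of 2 ^ (k : ℤ)⁆})) ≃*
      TestGroup W) := h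
  rw [himg] at h2
  exact h2

theorem threeGen (W : Set (FreeGroup ℕ)) (N : Subgroup (RF W 3)) [N.Normal] :
    ThreeGenerated (RF W 3 ⧸ N) := by
  refine ⟨QuotientGroup.mk' N (RF.gen W 0), QuotientGroup.mk' N (RF.gen W 1),
    QuotientGroup.mk' N (RF.gen W 2), ?_⟩
  rw [← gen_quot W 3 N]
  congr 1
  ext x
  constructor
  · rintro (rfl | rfl | rfl)
    · exact ⟨0, rfl⟩
    · exact ⟨1, rfl⟩
    · exact ⟨2, rfl⟩
  · rintro ⟨i, rfl⟩
    fin_cases i
    · exact Or.inl rfl
    · exact Or.inr (Or.inl rfl)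
    · exact Or.inr (Or.inr rfl)

theorem lcs_eq {G : Type} [Group G] (H : Subgroup G) (k : ℕ) : lcs H k = Lw H k H := by
  induction k with
  | zero => rfl
  | succ k ih => rw [Lw_succ, ← ih]; rfl

theorem nnf_of_vn {G : Type} [Group G] (h : VN G) : NilpotentByNilpotentByFinite G := by
  obtain ⟨H, h1, h2, k, c, h3⟩ := h
  refine ⟨H, h1, h2, k, c, ?_⟩
  rw [lcs_eq, lcs_eq, h3]

theorem rf_equiv {G H : Type} [Group G] [Group H] (e : G ≃* H) (h : ResiduallyFinite G) :
    ResiduallyFinite H := by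
  intro g hg
  obtain ⟨N, h1, h2, h3⟩ := h (e.symm g) (fun h0 => hg (by
    rw [← e.apply_symm_apply g, h0, map_one]))
  refine ⟨N.comap e.symm.toMonoidHom, h1.comap _, ⟨?_⟩, h3⟩
  rw [Subgroup.index_comap_of_surjective _ e.symm.surjective]
  exact h2.index_ne_zero

/-- the one-sided set of commutators in the relatively free group -/
def oneSet (W : Set (FreeGroup ℕ)) : Set (RF W 3) :=
  {x : RF W 3 | ∃ i : ℕ, 1 ≤ i ∧
    x = ⁅(RF.gen W 0 : RF W 3), RF.gen W 2 ^ (-(i : ℤ)) * RF.gen W 1 * RF.gen W 2 ^ (i : ℤ)⁆}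

theorem oneSided_of_hopf (W : Set (FreeGroup ℕ)) (h : Hopfian (TestGroup W)) :
    ⁅(RF.gen W 0 : RF W 3), RF.gen W 1⁆ ∈ Subgroup.normalClosure (oneSet W) := by
  obtain ⟨e⟩ := testEquiv W
  have hT := Hopf.of_equiv e.symm h
  obtain ⟨α, hα1, hα2⟩ := J_aut W 3 1 2 (by decide)
  have hαb : α (RF.gen W 0) = RF.gen W 0 := hα1 0 (by decide)
  have hαt : α (RF.gen W 2) = RF.gen W 2 := hα1 2 (by decide)
  have hρ : ∀ k : ℤ, (α ^ k) ⁅(RF.gen W 0 : RF W 3), RF.gen W 1⁆ =
      ⁅(RF.gen W 0 : RF W 3), RF.gen W 2 ^ k * RF.gen W 1 * RF.gen W 2 ^ (-k)⁆ := by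
    intro k
    rw [map_commutatorElement, zpow_fixed α _ hαb, zpow_conj α _ _ hαt hα2]
  have hset : {x : RF W 3 | ∃ k : ℕ, x = ⁅(RF.gen W 0 : RF W 3),
      RF.gen W 2 ^ (-(k : ℤ)) * RF.gen W 1 * RF.gen W 2 ^ (k : ℤ)⁆} =
      {x : RF W 3 | ∃ k : ℕ, x = (α ^ (-(k : ℤ))) ⁅(RF.gen W 0 : RF W 3), RF.gen W 1⁆} := by
    ext x
    simp only [Set.mem_ofPred_eq, hρ, neg_neg]
  rw [hset] at hT
  refine Subgroup.normalClosure_mono ?_ (hopf_auto' α _ hT)
  rintro _ ⟨k, rfl⟩
  refine ⟨k + 1, by omega, ?_⟩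
  rw [hρ]
  push_cast
  rw [neg_neg]

theorem uI_of_oneSided (W : Set (FreeGroup ℕ))
    (h : ⁅(RF.gen W 0 : RF W 3), RF.gen W 1⁆ ∈ Subgroup.normalClosure (oneSet W)) :
    ∃ u : UI, ∀ (G : Type) [Group G], InVar W G → u.Grp G := by
  apply M_extract W
  refine Subgroup.normalClosure_mono ?_ h
  rintro _ ⟨i, hi, rfl⟩
  exact ⟨-(i : ℤ), by omega, by rw [neg_neg]⟩

theorem law_of_oneSided (W : Set (FreeGroup ℕ))
    (h : ⁅(RF.gen W 0 : RF W 3), RF.gen W 1⁆ ∈ Subgroup.normalClosure (oneSet W)) :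
    ∃ w : FreeGroup (Fin 3), Good w ∧ IsLaw W w := by
  have himg : oneSet W = QuotientGroup.mk' (verb W 3) ''
      {x : FreeGroup (Fin 3) | ∃ i : ℕ, 1 ≤ i ∧
      x = ⁅(FreeGroup.of 0 : FreeGroup (Fin 3)),
        FreeGroup.of 2 ^ (-(i : ℤ)) * FreeGroup.of 1 * FreeGroup.of 2 ^ (i : ℤ)⁆} := by
    ext x
    constructor
    · rintro ⟨k, hk, rfl⟩
      refine ⟨_, ⟨k, hk, rfl⟩, ?_⟩
      rw [map_commutatorElement, map_mul, map_mul, map_zpow, map_zpow]
      rfl
    · rintro ⟨_, ⟨k, hk, rfl⟩, rfl⟩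
      refine ⟨k, hk, ?_⟩
      rw [map_commutatorElement, map_mul, map_mul, map_zpow, map_zpow]
      rfl
  rw [himg, ← Subgroup.map_normalClosure _ _ (QuotientGroup.mk'_surjective _)] at h
  obtain ⟨d, hd, hd2⟩ := h
  refine ⟨_, ⟨d⁻¹, inv_mem hd, rfl⟩, ?_⟩
  intro G _ hG' f
  have hG : InVar W G := hG'
  have h1 : FreeGroup.lift f d = ⁅f 0, f 1⁆ := by
    have h2 := congrArg (RF.lift hG f) hd2
    have g0 : RF.lift hG f (RF.gen W 0) = f 0 := RF.lift_gen hG f 0
    have g1 : RF.lift hG f (RF.gen W 1) = f 1 := RF.lift_gen hG f 1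
    rw [map_commutatorElement, g0, g1, RF.lift_mk] at h2
    exact h2
  rw [map_mul, map_inv, h1, map_commutatorElement, FreeGroup.lift_apply_of,
    FreeGroup.lift_apply_of, mul_inv_cancel]

theorem cond_of_law (W : Set (FreeGroup ℕ)) (h : ∃ w : FreeGroup (Fin 3), Good w ∧ IsLaw W w) :
    ConjugateCondition W := by
  obtain ⟨w, ⟨d, hd, rfl⟩, hw⟩ := h
  intro G _ hG b m t hbm
  have h1 := hw G hG ![b, m, t]
  have h2 : FreeGroup.lift ![b, m, t] d = 1 := by
    have h3 : Subgroup.normalClosure {x : FreeGroup (Fin 3) | ∃ i : ℕ, 1 ≤ i ∧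
        x = ⁅(FreeGroup.of 0 : FreeGroup (Fin 3)),
        FreeGroup.of 2 ^ (-(i : ℤ)) * FreeGroup.of 1 * FreeGroup.of 2 ^ (i : ℤ)⁆} ≤
        (FreeGroup.lift ![b, m, t]).ker := by
      apply Subgroup.normalClosure_le_normal
      rintro _ ⟨i, hi, rfl⟩
      change FreeGroup.lift ![b, m, t] _ = 1
      rw [map_commutatorElement, map_mul, map_mul, map_zpow, map_zpow, FreeGroup.lift_apply_of,
        FreeGroup.lift_apply_of, FreeGroup.lift_apply_of]
      exact hbm i hi
    exact h3 hd
  rw [map_mul, h2, mul_one, map_commutatorElement, FreeGroup.lift_apply_of,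
    FreeGroup.lift_apply_of] at h1
  exact h1

theorem oneSided_of_cond (W : Set (FreeGroup ℕ)) (h : ConjugateCondition W) :
    ⁅(RF.gen W 0 : RF W 3), RF.gen W 1⁆ ∈ Subgroup.normalClosure (oneSet W) := by
  set N := Subgroup.normalClosure (oneSet W) with hN
  have h1 := h (RF W 3 ⧸ N) ((RF_inVar W 3).quot N) (QuotientGroup.mk' N (RF.gen W 0))
    (QuotientGroup.mk' N (RF.gen W 1)) (QuotientGroup.mk' N (RF.gen W 2)) (by
      intro i hi
      rw [← map_zpow, ← map_zpow, ← map_mul, ← map_mul, ← map_commutatorElement,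
        QuotientGroup.mk'_apply, QuotientGroup.eq_one_iff]
      exact Subgroup.subset_normalClosure ⟨i, hi, rfl⟩)
  rw [← map_commutatorElement, QuotientGroup.mk'_apply, QuotientGroup.eq_one_iff] at h1
  exact h1

/-- **Soluble varieties whose finitely generated groups are residually finite.** For a soluble
variety `V` of groups (defined by a set `W` of laws) the following are equivalent:
all finitely generated groups in `V` are residually finite; all `3`-generator groups in `V` are
residually finite; the `3`-generator test group of `V` is residually finite; in the groups of `V`, if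
`b` commutes with `t^(-i) m t^i` for all `i ≥ 1`, then `b` commutes with `m`; `V` satisfies one of the
laws `[b, m] * d`, `d` in the normal closure of the commutators `[b, t^(-i) m t^i]`, `i ≥ 1`; all
finitely generated groups in `V` are Hopfian; the test group is Hopfian; all finitely generated
groups in `V` satisfy the maximal condition on normal subgroups; `V` is small. In this case all
finitely generated groups in `V` are nilpotent-by-(nilpotent-by-finite). -/
theorem result (W : Set (FreeGroup ℕ)) (hsol : SolubleVariety W) :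
    List.TFAE [
      ∀ (G : Type) [Group G], Group.FG G → InVariety W G → ResiduallyFinite G,
      ∀ (G : Type) [Group G], ThreeGenerated G → InVariety W G → ResiduallyFinite G,
      ResiduallyFinite (TestGroup W),
      ConjugateCondition W,
      ∃ w : FreeGroup (Fin 3), Good w ∧ IsLaw W w,
      ∀ (G : Type) [Group G], Group.FG G → InVariety W G → Hopfian G,
      Hopfian (TestGroup W),
      ∀ (G : Type) [Group G], Group.FG G → InVariety W G → MaxNormal G,
      SmallVariety W] ∧
    (ConjugateCondition W → ∀ (G : Type) [Group G], Group.FG G → InVariety W G →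
      NilpotentByNilpotentByFinite G) := by
  obtain ⟨d, hd⟩ := hsol
  have key : ConjugateCondition W → ∀ (G : Type) [Group G], Group.FG G → InVariety W G →
      VN G ∧ MaxN G ∧ ResiduallyFinite G := by
    intro h G _ hfg hG
    obtain ⟨u, hu⟩ := uI_of_oneSided W (oneSided_of_cond W h)
    obtain ⟨h1, h2⟩ := U_main u d G (hu G hG) (hd G hG)
    exact ⟨h1, h2, resFin_of_UI h2 h1 u (hu G hG)⟩
  refine ⟨?_, fun h G _ hfg hG => nnf_of_vn (key h G hfg hG).1⟩
  tfae_have 1 → 2 := by
    rintro h G _ ⟨a, b, c, habc⟩ hG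
    classical
    refine h G ⟨⟨({a, b, c} : Finset G), ?_⟩⟩ hG
    rw [← habc]
    congr 1
    simp
  tfae_have 2 → 3 := by
    intro h
    obtain ⟨e⟩ := testEquiv W
    refine rf_equiv e ?_
    exact h _ (threeGen W _) ((RF_inVar W 3).quot _)
  tfae_have 3 → 7 := by
    intro h φ hφ
    have hfg : Group.FG (TestGroup W) := QuotientGroup.fg _
    exact hopf_of_resFin h φ hφ
  tfae_have 7 → 5 := fun h => law_of_oneSided W (oneSided_of_hopf W h)
  tfae_have 5 → 4 := cond_of_law W
  tfae_have 4 → 1 := fun h G _ hfg hG => (key h G hfg hG).2.2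
  tfae_have 4 → 9 := by
    intro h ι G _ hfg hG hne
    have hc := countable_of_maxN W (fun n => by
      have : Group.FG (RF W n) := QuotientGroup.fg _
      exact (key h (RF W n) this (RF_inVar W n)).2.1) ι G hfg hG hne
    exact (Cardinal.mk_le_aleph0_iff.2 hc).trans_lt Cardinal.aleph0_lt_continuum
  tfae_have 9 → 8 := by
    intro h G _ hfg hG N hN
    have hmax : MaxN G := maxN_of_small h d hd G hG
    exact hmax.normalClosure N hN
  tfae_have 8 → 6 := by
    intro h G _ hfg hG φ hφ
    exact hopfian_of_maxN (maxN_of_closure (h G hfg hG)) φ hφ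
  tfae_have 6 → 7 := by
    intro h
    obtain ⟨e⟩ := testEquiv W
    refine Hopf.of_equiv e ?_
    exact h _ (QuotientGroup.fg _) ((RF_inVar W 3).quot _)
  tfae_finish

end Pool.Agent.Results.MP_364ede_al.Criterion
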